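import Pool.Agent.NPC.Defs
import Pool.Agent.NPC.Classes
import Pool.Agent.H911Z.UV.Defs
import Pool.Agent.H911Z.UV.Final

namespace Pool.Agent.Results.MP_148663_lc.CoNPHard

open Pool.Agent.NPC Pool.Agent.H911Z.UV

/-- Recognising `0`-`1` systems `A x ≤ b, x ≥ 0` with `b > 0` all of whose vertex cones are
unimodular is `coNP`-hard: every language in `coNP` reduces to it in polynomial time by a
many-one reduction that only produces valid instances. -/
theorem result (L : Set (List Bool)) (hL : InCoNP L) :
    ∃ f : List Bool → List Bool, PolyTime f ∧ ∀ x, ∃ (m n : ℕ) (A : Matrix (Fin m) (Fin n) Bool)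
      (b : Fin m → ℚ), (∀ i, 0 < b i) ∧ f x = enc A b ∧ (x ∈ L ↔ Unimodular A b) :=
  hard L hL

end Pool.Agent.Results.MP_148663_lc.CoNPHard
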